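import Pool.Agent.Q128.Span.Main

/-!
# MP_b53101_co: rank-two groups with a two-element signed `s`-spanning set

The complete answer, for every `s` and every group of rank two.
-/

set_option autoImplicit false

namespace Pool.Agent.Results.MP_b53101_co.RankTwoSpanning

open Pool.Agent.Q128.Span

theorem result : ∀ (n1 n2 s : ℕ), 2 ≤ n1 → n1 ∣ n2 → 0 < n2 → ∀ (G : Type) [AddCommGroup G],
    Nonempty (G ≃+ ZMod n1 × ZMod n2) → (phi G s = 2 ↔ Adm s n1 (n2 / n1)) := by
  intro n1 n2 s h1 h12 h2 G _ ⟨e⟩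
  exact main h1 h12 h2 e

end Pool.Agent.Results.MP_b53101_co.RankTwoSpanning
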